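import Mathlib
import Pool.Agent.Results.MP_d10d5e_co.CycleDefectStability

/-!
# Spectral radius of graphs with `m` edges without a cycle sharing an edge with a triangle

Let `k ≥ 2` and let `G` be a graph with `m ≥ (10^60 k^60 2^(4k))^2 + k^2 + k` edges and without
isolated vertices which does not contain `C_{2k}^△` or does not contain `C_{2k+1}^△`. Then
`λ(G) ≤ (k - 1 + √(4m - k^2 + 1)) / 2`, with equality exactly for the join of a clique on `k`
vertices and an independent set of `(m - k (k - 1) / 2) / k` vertices (which contains neither of the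
two graphs). Moreover, for every natural number `z ≤ k^2 / 4`, the inequality
`λ^2 - (k - 1) λ ≥ m - k (k - 1) / 2 - z / k` holds if and only if `G` has a clique with `k`
vertices of defect at most `z`.
-/

set_option autoImplicit false

namespace Pool.Agent.Results.MP_c4c42c_co.TriangleCycleStability

open Finset Pool.Agent.Helper951.Defs Pool.Agent.Helper951.Spec Pool.Agent.Helper951.FanA
open Pool.Agent.Y804.SF

/-- The graph `C_t^△`: the cycle `C_t` on the vertices `0, …, t - 1` together with one extra vertex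
which is adjacent to the ends `0` and `1` of one edge of the cycle. -/
def cycleTriangle (t : ℕ) : SimpleGraph (Fin t ⊕ Fin 1) where
  Adj x y := match x, y with
    | Sum.inl i, Sum.inl j => (SimpleGraph.cycleGraph t).Adj i j
    | Sum.inl i, Sum.inr _ => i.val ≤ 1
    | Sum.inr _, Sum.inl i => i.val ≤ 1
    | Sum.inr _, Sum.inr _ => False
  symm := ⟨by
    rintro (a | a) (b | b) h
    · exact SimpleGraph.adj_symm _ h
    · exact h
    · exact h
    · exact h⟩
  loopless := ⟨by
    rintro (a | a) h
    · exact (SimpleGraph.ne_of_adj _ h) rfl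
    · exact h⟩

/-- `C_t^△` is contained in the fan `K_1 ∨ P_n` if `3 ≤ t ≤ n`. -/
theorem cycleTriangle_fan (t n : ℕ) (ht : 3 ≤ t) (h : t ≤ n) :
    (cycleTriangle t).IsContained (fan n) := by
  obtain ⟨r, rfl⟩ : ∃ r, t = r + 1 + 2 := ⟨t - 3, by omega⟩
  let f : Fin (r + 1 + 2) ⊕ Fin 1 → Fin 1 ⊕ Fin n := fun x =>
    match x with
    | Sum.inl i => if hi : i.val = 0 then Sum.inl 0 else Sum.inr ⟨i.val, by omega⟩
    | Sum.inr _ => Sum.inr ⟨0, by omega⟩
  have e0 : ∀ i : Fin (r + 1 + 2), i.val = 0 → f (Sum.inl i) = Sum.inl 0 := fun i hi => dif_pos hi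
  have e1 : ∀ i : Fin (r + 1 + 2), i.val ≠ 0 → f (Sum.inl i) = Sum.inr ⟨i.val, by omega⟩ :=
    fun i hi => dif_neg hi
  have e2 : ∀ i : Fin 1, f (Sum.inr i) = Sum.inr ⟨0, by omega⟩ := fun i => rfl
  have hstep : ∀ i j : Fin (r + 1 + 2), j = i + 1 → (fan n).Adj (f (Sum.inl i)) (f (Sum.inl j)) := by
    intro i j hij
    have hv : j.val = if i.val = r + 2 then 0 else i.val + 1 := by
      subst hij
      rw [Fin.val_add_one]
      have : (i = Fin.last (r + 1 + 1)) ↔ i.val = r + 2 := by
        rw [Fin.ext_iff, Fin.val_last]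
      simp only [this]
    by_cases h0 : i.val = 0
    · have hj : j.val ≠ 0 := by
        rw [hv, h0, if_neg (by omega)]
        omega
      rw [e0 i h0, e1 j hj]
      exact trivial
    · by_cases hl : i.val = r + 2
      · have hj : j.val = 0 := by rw [hv, if_pos hl]
        rw [e0 j hj, e1 i h0]
        exact trivial
      · have hj : j.val = i.val + 1 := by rw [hv, if_neg hl]
        rw [e1 i h0, e1 j (by omega)]
        show (SimpleGraph.pathGraph n).Adj _ _
        rw [SimpleGraph.pathGraph_adj]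
        left
        show i.val + 1 = j.val
        omega
  have hext : ∀ (i : Fin (r + 1 + 2)) (j : Fin 1), i.val ≤ 1 →
      (fan n).Adj (f (Sum.inl i)) (f (Sum.inr j)) := by
    intro i j hi
    rw [e2 j]
    by_cases h0 : i.val = 0
    · rw [e0 i h0]
      exact trivial
    · rw [e1 i h0]
      show (SimpleGraph.pathGraph n).Adj _ _
      rw [SimpleGraph.pathGraph_adj]
      right
      show 0 + 1 = i.val
      omega
  have hf : ∀ x y, (cycleTriangle (r + 1 + 2)).Adj x y → (fan n).Adj (f x) (f y) := by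
    rintro (i | i) (j | j) hij
    · have hij' : (SimpleGraph.cycleGraph (r + 1 + 2)).Adj i j := hij
      rw [SimpleGraph.cycleGraph_adj] at hij'
      rcases hij' with h' | h'
      · exact (hstep j i (by rw [← h']; abel)).symm
      · exact hstep i j (by rw [← h']; abel)
    · exact hext i j hij
    · exact (hext j i hij).symm
    · exact hij.elim
  have hinj : Function.Injective f := by
    rintro (i | i) (j | j) hij
    · congr 1
      by_cases h0 : i.val = 0 <;> by_cases h1 : j.val = 0
      · exact Fin.ext (by omega)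
      · rw [e0 i h0, e1 j h1] at hij
        exact absurd hij (by simp)
      · rw [e1 i h0, e0 j h1] at hij
        exact absurd hij (by simp)
      · rw [e1 i h0, e1 j h1] at hij
        have h3 := Sum.inr.inj hij
        rw [Fin.mk.injEq] at h3
        exact Fin.ext h3
    · exfalso
      rw [e2 j] at hij
      by_cases h0 : i.val = 0
      · rw [e0 i h0] at hij
        exact absurd hij (by simp)
      · rw [e1 i h0] at hij
        have h3 := Sum.inr.inj hij
        rw [Fin.mk.injEq] at h3
        exact h0 h3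
    · exfalso
      rw [e2 i] at hij
      by_cases h0 : j.val = 0
      · rw [e0 j h0] at hij
        exact absurd hij (by simp)
      · rw [e1 j h0] at hij
        have h3 := Sum.inr.inj hij
        rw [Fin.mk.injEq] at h3
        exact h0 h3.symm
    · congr 1
      exact Subsingleton.elim _ _
  exact ⟨⟨⟨f, fun {i j} h => hf i j h⟩, hinj⟩⟩

/-- The cyclic successor of a vertex of `C_t^△` on a Hamilton cycle: `0 → extra → 1 → 2 → ⋯ → 0`. -/
theorem exists_succ (t : ℕ) (ht : 3 ≤ t) : ∃ σ : Fin t ⊕ Fin 1 → Fin t ⊕ Fin 1,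
    Function.Injective σ ∧ ∀ x, (cycleTriangle t).Adj x (σ x) := by
  obtain ⟨r, rfl⟩ : ∃ r, t = r + 1 + 2 := ⟨t - 3, by omega⟩
  let σ : Fin (r + 1 + 2) ⊕ Fin 1 → Fin (r + 1 + 2) ⊕ Fin 1 := fun x =>
    match x with
    | Sum.inl i => if i.val = 0 then Sum.inr 0 else Sum.inl (i + 1)
    | Sum.inr _ => Sum.inl 1
  have e0 : ∀ i : Fin (r + 1 + 2), i.val = 0 → σ (Sum.inl i) = Sum.inr 0 := fun i hi => if_pos hi
  have e1 : ∀ i : Fin (r + 1 + 2), i.val ≠ 0 → σ (Sum.inl i) = Sum.inl (i + 1) :=
    fun i hi => if_neg hi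
  have e2 : ∀ i : Fin 1, σ (Sum.inr i) = Sum.inl 1 := fun i => rfl
  refine ⟨σ, ?_, ?_⟩
  · rintro (i | i) (j | j) hij
    · congr 1
      by_cases h0 : i.val = 0 <;> by_cases h1 : j.val = 0
      · exact Fin.ext (by omega)
      · rw [e0 i h0, e1 j h1] at hij
        exact absurd hij (by simp)
      · rw [e1 i h0, e0 j h1] at hij
        exact absurd hij (by simp)
      · rw [e1 i h0, e1 j h1] at hij
        exact add_right_cancel (Sum.inl.inj hij)
    · exfalso
      rw [e2 j] at hij
      by_cases h0 : i.val = 0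
      · rw [e0 i h0] at hij
        exact absurd hij (by simp)
      · rw [e1 i h0] at hij
        have h3 := Sum.inl.inj hij
        have h4 : i = 0 := by
          have : i + 1 = 0 + 1 := by rw [h3]; simp
          exact add_right_cancel this
        exact h0 (by rw [h4]; rfl)
    · exfalso
      rw [e2 i] at hij
      by_cases h0 : j.val = 0
      · rw [e0 j h0] at hij
        exact absurd hij (by simp)
      · rw [e1 j h0] at hij
        have h3 := Sum.inl.inj hij
        have h4 : j = 0 := by
          have : j + 1 = 0 + 1 := by rw [← h3]; simp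
          exact add_right_cancel this
        exact h0 (by rw [h4]; rfl)
    · congr 1
      exact Subsingleton.elim _ _
  · rintro (i | i)
    · by_cases h0 : i.val = 0
      · rw [e0 i h0]
        show i.val ≤ 1
        omega
      · rw [e1 i h0]
        show (SimpleGraph.cycleGraph (r + 1 + 2)).Adj i (i + 1)
        rw [SimpleGraph.cycleGraph_adj]
        right
        abel
    · rw [e2 i]
      show (1 : Fin (r + 1 + 2)).val ≤ 1
      exact le_of_eq (by rfl)

/-- `K_k ∨ I_s` does not contain `C_t^△` if `2 k ≤ t`. -/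
theorem split_free (k s t : ℕ) (ht : 3 ≤ t) (hk : 2 * k ≤ t) :
    ¬ (cycleTriangle t).IsContained (splitGraph k s) := by
  classical
  rintro ⟨⟨f, hf⟩⟩
  obtain ⟨σ, hσ, hadj⟩ := exists_succ t ht
  have hf' : Function.Injective f := hf
  let A : Finset (Fin t ⊕ Fin 1) := univ.filter fun x => (f x).isLeft
  let B : Finset (Fin t ⊕ Fin 1) := univ.filter fun x => (f x).isRight
  have hA : A.card ≤ k := by
    have h1 : A.card = (A.image f).card := (Finset.card_image_of_injective _ hf').symm
    have h2 : A.image f ⊆ (univ : Finset (Fin k)).image Sum.inl := by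
      intro y hy
      obtain ⟨x, hx, rfl⟩ := Finset.mem_image.1 hy
      have h3 : (f x).isLeft := (Finset.mem_filter.1 hx).2
      obtain ⟨a, ha⟩ := Sum.isLeft_iff.1 h3
      rw [ha]
      exact Finset.mem_image_of_mem _ (Finset.mem_univ _)
    rw [h1]
    refine (Finset.card_le_card h2).trans (Finset.card_image_le.trans ?_)
    simp
  have hAB : A.card + B.card = t + 1 := by
    have h1 : Disjoint A B := by
      rw [Finset.disjoint_left]
      intro x hx hx'
      have h1 := (Finset.mem_filter.1 hx).2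
      have h2 := (Finset.mem_filter.1 hx').2
      rw [← Sum.not_isLeft] at h2
      simp [h1] at h2
    have h2 : A ∪ B = univ := by
      ext x
      simp only [Finset.mem_union, Finset.mem_filter, Finset.mem_univ, true_and, iff_true, A, B]
      cases f x <;> simp
    rw [← Finset.card_union_of_disjoint h1, h2]
    simp
  have hBA : B.card ≤ A.card := by
    apply Finset.card_le_card_of_injOn σ
    · intro x hx
      have hx' : (f x).isRight := (Finset.mem_filter.1 (Finset.mem_coe.1 hx)).2
      have h1 : (splitGraph k s).Adj (f x) (f (σ x)) := f.map_adj (hadj x)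
      obtain ⟨b, hb⟩ := Sum.isRight_iff.1 hx'
      refine Finset.mem_coe.2 (Finset.mem_filter.2 ⟨Finset.mem_univ _, ?_⟩)
      rw [hb] at h1
      cases hs : f (σ x) with
      | inl a => rfl
      | inr c =>
        rw [hs] at h1
        exact (h1 : False).elim
    · exact hσ.injOn
  omega

/-- Edge count and spectral radius of `K_k ∨ I_s`. -/
theorem split_facts (k s : ℕ) (hk : 1 ≤ k) (hs : 1 ≤ s) :
    2 * (splitGraph k s).edgeSet.ncard = k * (k - 1) + 2 * (k * s) ∧
    specRad (splitGraph k s) ^ 2 - ((k : ℝ) - 1) * specRad (splitGraph k s) = k * s ∧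
    (k : ℝ) - 1 ≤ specRad (splitGraph k s) := by
  classical
  have hkR : (1 : ℝ) ≤ k := by exact_mod_cast hk
  have hsR : (1 : ℝ) ≤ s := by exact_mod_cast hs
  have hsum : ∀ (y : Fin k ⊕ Fin s → ℝ) (v : Fin k ⊕ Fin s),
      ∑ u ∈ (splitGraph k s).neighborFinset v, y u =
        ∑ u, if (splitGraph k s).Adj v u then y u else 0 := by
    intro y v
    rw [← Finset.sum_filter]
    apply Finset.sum_congr _ fun _ _ => rfl
    ext u
    simp
  have hl : ∀ (y : Fin k ⊕ Fin s → ℝ) (a : Fin k),
      (∑ u, if (splitGraph k s).Adj (Sum.inl a) u then y u else 0) =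
        (∑ b : Fin k, if a ≠ b then y (Sum.inl b) else 0) + ∑ c : Fin s, y (Sum.inr c) := by
    intro y a
    rw [Fintype.sum_sum_type]
    congr 1
    · apply Finset.sum_congr rfl
      intro b _
      by_cases hab : a = b
      · rw [if_neg, if_neg]
        · exact fun h => h hab
        · exact fun h => (h : a ≠ b) hab
      · rw [if_pos, if_pos]
        · exact hab
        · exact (hab : a ≠ b)
    · apply Finset.sum_congr rfl
      intro c _
      exact if_pos trivial
  have hr : ∀ (y : Fin k ⊕ Fin s → ℝ) (c : Fin s),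
      (∑ u, if (splitGraph k s).Adj (Sum.inr c) u then y u else 0) =
        ∑ b : Fin k, y (Sum.inl b) := by
    intro y c
    rw [Fintype.sum_sum_type]
    have h1 : ∑ d : Fin s, (if (splitGraph k s).Adj (Sum.inr c) (Sum.inr d) then y (Sum.inr d)
        else 0) = 0 := Finset.sum_eq_zero fun d _ => if_neg (fun h => (h : False).elim)
    rw [h1, add_zero]
    apply Finset.sum_congr rfl
    intro b _
    exact if_pos trivial
  have hne : ∀ (a : Fin k) (z : ℝ), (∑ b : Fin k, if a ≠ b then z else 0) = (k - 1) * z := by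
    intro a z
    rw [← Finset.sum_filter, Finset.sum_const, Finset.filter_ne, Finset.card_erase_of_mem (mem_univ _),
      Finset.card_univ, Fintype.card_fin, nsmul_eq_mul, Nat.cast_sub hk]
    norm_num
  refine ⟨?_, ?_⟩
  · have h1 := (splitGraph k s).sum_degrees_eq_twice_card_edges
    have h2 : (splitGraph k s).edgeSet.ncard = (splitGraph k s).edgeFinset.card := by
      rw [Set.ncard_eq_toFinset_card']
      rfl
    have h3 : ∀ v, ((splitGraph k s).degree v : ℝ) =
        ∑ u, if (splitGraph k s).Adj v u then (1 : ℝ) else 0 := by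
      intro v
      rw [← hsum (fun _ => 1) v, Finset.sum_const, nsmul_eq_mul, mul_one,
        SimpleGraph.card_neighborFinset_eq_degree]
    have h4 : (∑ v, ((splitGraph k s).degree v : ℝ)) = 2 * ((splitGraph k s).edgeFinset.card : ℝ) := by
      exact_mod_cast h1
    rw [Fintype.sum_sum_type] at h4
    have h5 : ∀ a : Fin k, ((splitGraph k s).degree (Sum.inl a) : ℝ) = (k - 1) * 1 + s := by
      intro a
      rw [h3, hl (fun _ => 1) a, hne a 1]
      simp
    have h6 : ∀ c : Fin s, ((splitGraph k s).degree (Sum.inr c) : ℝ) = k := by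
      intro c
      rw [h3, hr (fun _ => 1) c]
      simp
    simp only [h5, h6, Finset.sum_const, Finset.card_univ, Fintype.card_fin, nsmul_eq_mul] at h4
    rw [h2]
    have h7 : (2 * (splitGraph k s).edgeFinset.card : ℝ) = (k * (k - 1 : ℕ) + 2 * (k * s) : ℝ) := by
      rw [Nat.cast_sub hk, ← h4]
      push_cast
      ring
    exact_mod_cast h7
  · have : Nonempty (Fin k ⊕ Fin s) := ⟨Sum.inl ⟨0, hk⟩⟩
    obtain ⟨lam, hlam⟩ : ∃ lam : ℝ, lam = ((k : ℝ) - 1 + √(((k : ℝ) - 1) ^ 2 + 4 * (k * s))) / 2 :=
      ⟨_, rfl⟩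
    have hsq : √(((k : ℝ) - 1) ^ 2 + 4 * (k * s)) ^ 2 = ((k : ℝ) - 1) ^ 2 + 4 * (k * s) :=
      Real.sq_sqrt (by positivity)
    have hroot : (k : ℝ) - 1 < √(((k : ℝ) - 1) ^ 2 + 4 * (k * s)) := by
      apply Real.lt_sqrt_of_sq_lt
      nlinarith
    have hlam2 : lam ^ 2 - ((k : ℝ) - 1) * lam = k * s := by
      rw [hlam]
      linear_combination (1 / 4 : ℝ) * hsq
    have hlamk : (k : ℝ) - 1 < lam := by rw [hlam]; linarith
    have hlam0 : 0 < lam := by linarith
    let y : Fin k ⊕ Fin s → ℝ := Sum.elim (fun _ => lam) (fun _ => k)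
    have hy : ∀ v, 0 < y v := by
      rintro (a | a)
      · exact hlam0
      · show (0 : ℝ) < k
        linarith
    have hev : ∀ v, ∑ u ∈ (splitGraph k s).neighborFinset v, y u = lam * y v := by
      rintro (a | c)
      · rw [hsum, hl]
        show (∑ b : Fin k, if a ≠ b then lam else 0) + ∑ c : Fin s, (k : ℝ) = lam * lam
        rw [hne, Finset.sum_const, Finset.card_univ, Fintype.card_fin, nsmul_eq_mul]
        linarith
      · rw [hsum, hr]
        show ∑ b : Fin k, lam = lam * k
        rw [Finset.sum_const, Finset.card_univ, Fintype.card_fin, nsmul_eq_mul]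
        ring
    have h1 : specRad (splitGraph k s) = lam := by
      apply le_antisymm
      · exact specRad_le_of_super _ y hy lam fun v => (hev v).le
      · exact le_specRad_of_sub _ y (fun v => (hy v).le) ⟨Sum.inl ⟨0, hk⟩, hy _⟩ lam
          fun v => (hev v).ge
    rw [h1]
    exact ⟨hlam2, hlamk.le⟩

/-- **Main theorem.** -/
theorem result :
    (∀ k : ℕ, 2 ≤ k → ∀ m : ℕ, (10 ^ 60 * k ^ 60 * 2 ^ (4 * k)) ^ 2 + k ^ 2 + k ≤ m →
      ∀ (V : Type) (_ : Fintype V) (G : SimpleGraph V),
        G.edgeSet.ncard = m → (∀ v, ∃ w, G.Adj v w) →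
        (¬ (cycleTriangle (2 * k)).IsContained G ∨ ¬ (cycleTriangle (2 * k + 1)).IsContained G) →
        specRad G ≤ ((k : ℝ) - 1 + √(4 * m - k ^ 2 + 1)) / 2 ∧
        (specRad G = ((k : ℝ) - 1 + √(4 * m - k ^ 2 + 1)) / 2 ↔
          ∃ s : ℕ, k.choose 2 + k * s = m ∧ Nonempty (G ≃g splitGraph k s)) ∧
        (∀ z : ℕ, 4 * z ≤ k ^ 2 →
          ((m : ℝ) - k * (k - 1) / 2 - z / k ≤ specRad G ^ 2 - (k - 1) * specRad G ↔
            ∃ L : Finset V, L.card = k ∧ (∀ a ∈ L, ∀ b ∈ L, a ≠ b → G.Adj a b) ∧
              defect G k L ≤ z))) ∧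
    (∀ k s : ℕ, 2 ≤ k → ¬ (cycleTriangle (2 * k)).IsContained (splitGraph k s) ∧
      ¬ (cycleTriangle (2 * k + 1)).IsContained (splitGraph k s)) := by
  refine ⟨?_, fun k s hk => ⟨split_free k s _ (by omega) (by omega),
    split_free k s _ (by omega) (by omega)⟩⟩
  intro k hk m hm V instV G hG hiso hfree
  have hkR : (2 : ℝ) ≤ k := by exact_mod_cast hk
  have hfan : ¬ (fan (2 * k + 1)).IsContained G := by
    intro hcon
    rcases hfree with h | h
    · exact h ((cycleTriangle_fan (2 * k) (2 * k + 1) (by omega) (by omega)).trans hcon)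
    · exact h ((cycleTriangle_fan (2 * k + 1) (2 * k + 1) (by omega) (by omega)).trans hcon)
  have hstab := (Pool.Agent.Results.MP_0daf67_co.DefectStability.result k hk m hm V instV G
    hG hiso hfan).1
  have hmk : k ^ 2 + k ≤ m := by
    have := Nat.zero_le ((10 ^ 60 * k ^ 60 * 2 ^ (4 * k)) ^ 2)
    omega
  have hmkR : (k : ℝ) ^ 2 + k ≤ m := by exact_mod_cast hmk
  have hs0 : 0 ≤ √(4 * m - k ^ 2 + 1 : ℝ) := Real.sqrt_nonneg _
  have hs2 : √(4 * m - k ^ 2 + 1 : ℝ) ^ 2 = 4 * m - k ^ 2 + 1 := by
    apply Real.sq_sqrt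
    nlinarith
  -- the spectral radius of the extremal graph
  have hext : ∀ s : ℕ, Nonempty (G ≃g splitGraph k s) → k.choose 2 + k * s = m ∧
      specRad G = ((k : ℝ) - 1 + √(4 * m - k ^ 2 + 1)) / 2 := by
    rintro s ⟨e⟩
    have hcard : G.edgeSet.ncard = (splitGraph k s).edgeSet.ncard := by
      rw [← Nat.card_coe_set_eq, ← Nat.card_coe_set_eq]
      exact Nat.card_congr e.mapEdgeSet
    have hs : 1 ≤ s := by
      by_contra hcon
      have hs0 : s = 0 := by omega
      subst hs0
      have h1 : (splitGraph k 0).edgeSet.ncard ≤ k ^ 2 := by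
        have h2 : (splitGraph k 0).edgeSet.ncard ≤ Nat.card (Fin k ⊕ Fin 0) ^ 2 := by
          classical
          have h3 : (splitGraph k 0).edgeSet.ncard = (splitGraph k 0).edgeFinset.card := by
            rw [Set.ncard_eq_toFinset_card']
            rfl
          rw [h3, Nat.card_eq_fintype_card]
          refine (SimpleGraph.card_edgeFinset_le_card_choose_two (G := splitGraph k 0)).trans ?_
          exact Nat.choose_le_pow _ _
        simpa using h2
      have h2 := hcard ▸ hG
      omega
    obtain ⟨h1, h2, h3⟩ := split_facts k s (by omega) hs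
    rw [← hcard, hG] at h1
    have : Nonempty (Fin k ⊕ Fin s) := ⟨Sum.inl ⟨0, by omega⟩⟩
    have : Nonempty V := ⟨e.symm (Sum.inl ⟨0, by omega⟩)⟩
    have h4 : specRad G = specRad (splitGraph k s) := by
      classical
      exact specRad_iso G (splitGraph k s) e
    rw [← h4] at h2 h3
    have h5 : (2 * m : ℝ) = k * (k - 1) + 2 * (k * s) := by
      have : ((2 * m : ℕ) : ℝ) = ((k * (k - 1) + 2 * (k * s) : ℕ) : ℝ) := by rw [h1]
      push_cast [Nat.cast_sub (show 1 ≤ k by omega)] at this
      exact this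
    constructor
    · have h6 := Nat.choose_two_right k
      have h7 : 2 ∣ k * (k - 1) := (Nat.even_mul_pred_self k).two_dvd
      omega
    · have h6 : (2 * specRad G - (k - 1)) ^ 2 = √(4 * m - k ^ 2 + 1 : ℝ) ^ 2 := by
        rw [hs2]
        nlinarith
      have h7 : 0 ≤ 2 * specRad G - ((k : ℝ) - 1) := by linarith
      have h8 := (pow_left_inj₀ h7 hs0 (two_ne_zero)).1 h6
      linarith
  have hbig : ((k : ℝ) - 1 + √(4 * m - k ^ 2 + 1)) / 2 ≤ specRad G →
      ∃ s : ℕ, k.choose 2 + k * s = m ∧ Nonempty (G ≃g splitGraph k s) := by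
    intro h
    have h3 : √(4 * m - k ^ 2 + 1 : ℝ) ≤ 2 * specRad G - (k - 1) := by linarith
    have h4 := pow_le_pow_left₀ hs0 h3 2
    rw [hs2] at h4
    have h5 : (m : ℝ) - k * (k - 1) / 2 - ((0 : ℕ) : ℝ) / k ≤
        specRad G ^ 2 - (k - 1) * specRad G := by
      rw [Nat.cast_zero, zero_div]
      linarith [h4]
    obtain ⟨L, hL, hcl, hd⟩ := (hstab 0 (by omega)).1 h5
    obtain ⟨s, hs⟩ := Pool.Agent.Results.MP_d10d5e_co.CycleDefectStability.iso_of_zero G k hk hiso L
      hL hcl (by simpa using hd)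
    exact ⟨s, (hext s hs).1, hs⟩
  refine ⟨?_, ⟨fun h => hbig h.ge, fun ⟨s, _, hs⟩ => (hext s hs).2⟩, hstab⟩
  by_contra hcon
  push Not at hcon
  obtain ⟨s, _, hs⟩ := hbig hcon.le
  exact absurd (hext s hs).2 hcon.ne'

end Pool.Agent.Results.MP_c4c42c_co.TriangleCycleStability
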